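import Pool.Agent.H37.CP.Targets

/-!
# PARC: choice of the parameters (helper45)
-/

namespace Pool.Agent.H45.CPE

open Finset Pool.Agent.H37.CP

theorem six_le (B : ℕ) (hB : 30 ≤ B) : B ^ 6 ≤ 2 ^ B := by
  induction B, hB using Nat.le_induction with
  | base => norm_num
  | succ b hb ih =>
    have h1 : 30 * (b + 1) ≤ 31 * b := by omega
    have h2 : (30 * (b + 1)) ^ 6 ≤ (31 * b) ^ 6 := Nat.pow_le_pow_left h1 6
    rw [mul_pow, mul_pow] at h2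
    have h3 : 31 ^ 6 * b ^ 6 ≤ 30 ^ 6 * (2 * b ^ 6) := by
      have : (31 : ℕ) ^ 6 ≤ 30 ^ 6 * 2 := by norm_num
      calc 31 ^ 6 * b ^ 6 ≤ 30 ^ 6 * 2 * b ^ 6 := Nat.mul_le_mul_right _ this
        _ = 30 ^ 6 * (2 * b ^ 6) := by ring
    have h4 : (b + 1) ^ 6 ≤ 2 * b ^ 6 := Nat.le_of_mul_le_mul_left (h2.trans h3) (by positivity)
    calc (b + 1) ^ 6 ≤ 2 * b ^ 6 := h4
      _ ≤ 2 * 2 ^ b := Nat.mul_le_mul_left 2 ih
      _ = 2 ^ (b + 1) := by ring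

theorem pf_PARC : S_PARC := by
  intro R0 E _ hE
  refine ⟨26 * E + 6, by omega, R0 + 30 + 9 * E, fun B hB => ⟨by omega,
    (Nat.le_div_iff_mul_le hE).2 (by omega), ?_⟩⟩
  have hx : (1536 : ℝ) / ((2 : ℝ) ^ (26 * E + 6)) ^ 2 ≤ (1 / 2) ^ (51 * E) := by
    rw [one_div, inv_pow, ← one_div, div_le_div_iff₀ (by positivity) (by positivity), ← pow_mul]
    calc (1536 : ℝ) * 2 ^ (51 * E) ≤ 2 ^ 11 * 2 ^ (51 * E) := by
          have : (0 : ℝ) < 2 ^ (51 * E) := by positivity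
          nlinarith
      _ = 2 ^ (11 + 51 * E) := by rw [pow_add]
      _ ≤ 2 ^ ((26 * E + 6) * 2) := pow_le_pow_right₀ (by norm_num) (by omega)
      _ = 1 * 2 ^ ((26 * E + 6) * 2) := (one_mul _).symm
  have hx0 : (0 : ℝ) ≤ 1536 / ((2 : ℝ) ^ (26 * E + 6)) ^ 2 := by positivity
  have hT : 17 * B ≤ 51 * E * ((B / E) / 3 + 1) := by
    have h1 : B < E * 3 * (B / (E * 3) + 1) := Nat.lt_mul_div_succ B (by omega)
    rw [Nat.div_div_eq_div_mul]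
    calc 17 * B ≤ 17 * (E * 3 * (B / (E * 3) + 1)) := Nat.mul_le_mul_left 17 h1.le
      _ = 51 * E * (B / (E * 3) + 1) := by ring
  have h2 : (1536 / ((2 : ℝ) ^ (26 * E + 6)) ^ 2) ^ ((B / E) / 3 + 1) ≤ (1 / 2) ^ (17 * B) := by
    calc (1536 / ((2 : ℝ) ^ (26 * E + 6)) ^ 2) ^ ((B / E) / 3 + 1)
        ≤ ((1 / 2) ^ (51 * E)) ^ ((B / E) / 3 + 1) := pow_le_pow_left₀ hx0 hx _
      _ = (1 / 2) ^ (51 * E * ((B / E) / 3 + 1)) := by rw [← pow_mul]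
      _ ≤ (1 / 2) ^ (17 * B) := pow_le_pow_of_le_one (by norm_num) (by norm_num) hT
  have h3 : (2592 : ℝ) ^ B ≤ 2 ^ (12 * B) := by
    rw [pow_mul]
    exact pow_le_pow_left₀ (by norm_num) (by norm_num) B
  have h4 : ((R0 * B : ℕ) : ℝ) ^ 3 ≤ 2 ^ B := by
    have h5 : (R0 * B) ^ 3 ≤ 2 ^ B := by
      calc (R0 * B) ^ 3 ≤ (B * B) ^ 3 := Nat.pow_le_pow_left (Nat.mul_le_mul_right B (by omega)) 3
        _ = B ^ 6 := by ring
        _ ≤ 2 ^ B := six_le B (by omega)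
    exact_mod_cast h5
  calc ((R0 * B : ℕ) : ℝ) ^ 3 * 2592 ^ B * (1536 / ((2 : ℝ) ^ (26 * E + 6)) ^ 2) ^ ((B / E) / 3 + 1)
      ≤ 2 ^ B * 2 ^ (12 * B) * (1 / 2) ^ (17 * B) := by gcongr
    _ = (1 / 2 ^ B) ^ 4 := by
      rw [one_div, one_div, inv_pow, inv_pow, ← pow_mul, ← pow_add]
      rw [← div_eq_mul_inv, div_eq_iff (by positivity), ← one_div, one_div_mul_eq_div,
        eq_div_iff (by positivity), ← pow_add]
      congr 1
      omega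

end Pool.Agent.H45.CPE
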